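import Pool.Agent.J6H30.PV.JFinal

/-!
# The digits in all bases jointly, for the values of polynomials with algebraic irrational coefficients

Let `F` be a real form of degree `D` such that, for some set `T` of variables, the coefficients of the
monomials with support `T` are algebraic and not all rational; let `g` be any real polynomial of degree
less than `D` and `R` any polynomial with integral coefficients. For almost all points `k` of a box in
`ℤ ^ r` with sides at least `exp(ε N)` the number `z = F(k) + g(k) + R(k) / Q` looks up to the `N`-th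
digit like a random real number, in all bases at most `B` jointly: the words of digits of `z` in the
bases `2, 3, …, B` at the places `s_2 + i, s_3 + i, …, s_B + i` are jointly equidistributed, and have the
joint discrepancy `√n N ^ δ` in all windows `1 ≤ i ≤ n ≤ N`. In particular the expansions of `z` in
different bases are independent of each other, and, since `b, b ^ 2, b ^ 3, …` are among the bases, the
digits in base `b` at the places `s + i`, `2 (s' + i)`, `3 (s'' + i)`, … are jointly independent. All this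
holds for all polynomials with algebraic non-constant coefficients which are not all rational, for
instance for `m x`, `m ≤ exp(ε N)`, for any real algebraic irrational number `x`.
Moreover, the box may be replaced by an arbitrary cylinder intersection of density at least `exp(-κ N)`
in the box (an intersection of sets `Z_i`, `i ∈ T`, such that `Z_i` does not depend on the `i`-th
coordinate), and arbitrary functions which do not depend on the `i`-th variable, `i ∈ T`, may be added.
For instance: if `𝒜` and `ℬ` are arbitrary sets of integers of density at least `exp(-κ N)` in intervals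
of length at least `exp(ε N)`, and `γ` and `γ'` are arbitrary real functions, then almost all the numbers
`x a b + γ(a) + γ'(b)`, `a ∈ 𝒜`, `b ∈ ℬ`, have this property.

Proof. By the inequality of Erdős, Turán and Koksma (`PV.ETK`) one has to bound the sums of `e(z a_i)`,
`i ≤ n`, for the integers `a_i = ∑_b h_b b ^ (s_b + i)`. Outside a bounded set of indices one of the
summands is dominating, and along residue classes these indices give lacunary sequences with large gaps
(`PV.Lac`), for which only diagonal sums `∑_t ± a_(i_t)` vanish. The other ones occur as frequencies in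
exponential sums over the cylinder intersection with the phases `z(k) ∑_t ± a_(i_t)`. They are estimated
by box norms (the Gowers-Cauchy-Schwarz inequality), that is by Weyl sums over pairs of points `(k, k')`,
and these along the lines `(k + t w, k')`. After `D - 1` differencings with steps at most `exp(κ N)` the
frequencies are `q x ∑_t ± a_(i_t)` with an algebraic irrational number `x` and integers `q ≤ exp(κ N)`,
and the subspace theorem shows that they are not closer than `exp(-ε N)` to the integers.
-/

set_option autoImplicit false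

namespace Pool.Agent.Results.MP_f2f914_nt.AllBasesJointly

open Finset

/-- For all places `s b ≤ N`, all `n ≤ N` and all intervals `[α b, β b) ⊆ [0, 1)`, `2 ≤ b ≤ B`: the
number of `1 ≤ i ≤ n` such that for all bases `2 ≤ b ≤ B` the fractional part of `z b ^ (s b + i)` lies in
`[α b, β b)` differs from `n ∏ (β b - α b)` by at most `E √n`. -/
def JointlyRandom (B N : ℕ) (E z : ℝ) : Prop :=
  ∀ s : ℕ → ℕ, (∀ b, s b ≤ N) → ∀ n : ℕ, n ≤ N → ∀ α β : ℕ → ℝ,
    (∀ b, 0 ≤ α b ∧ α b < β b ∧ β b ≤ 1) →
    |(({i : ℕ | 1 ≤ i ∧ i ≤ n ∧ ∀ b : ℕ, 2 ≤ b → b ≤ B →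
      α b ≤ Int.fract (z * (b : ℝ) ^ (s b + i)) ∧
      Int.fract (z * (b : ℝ) ^ (s b + i)) < β b}.ncard : ℕ) : ℝ) - n * ∏ b ∈ Icc 2 B, (β b - α b)| ≤
        E * Real.sqrt n

/-- the intersection of the sets `Z i`, `i ∈ T`, in the box `∏ [J i, J i + M i)` -/
def Cylinder {r : ℕ} (J : Fin r → ℤ) (M : Fin r → ℕ) (T : Finset (Fin r))
    (Z : Fin r → Set (Fin r → ℤ)) : Set (Fin r → ℤ) :=
  {k | (∀ i, J i ≤ k i ∧ k i < J i + M i) ∧ ∀ i ∈ T, k ∈ Z i}

/-- Let `F` be a real form of degree `D ≥ 1` in `r` variables and `T` a set of variables such that the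
coefficients of the monomials of `F` with support `T` (those divisible by exactly the variables in `T`)
are algebraic and not all rational; let `Q ≥ 1`, `B`, `A` and `ε, δ > 0` be given. There is `κ > 0` such
that for all large `N`, all real polynomials `g` of total degree less than `D`, all polynomials `R` (of
any degree) with integral coefficients, all boxes `∏ [J i, J i + M i)` with `M i ≥ exp(ε N)` for `i ∈ T`,
all sets `Z i ⊆ ℤ ^ r`, `i ∈ T`, not depending on the `i`-th coordinate and all real functions `γ i` on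
`ℤ ^ r`, `i ∈ T`, not depending on the `i`-th coordinate: if the intersection `Ω` of the box with the
sets `Z i` contains at least `exp(-κ N) ∏ M i` points (for instance if all the `Z i` are `ℤ ^ r`), then
for all but at most `|Ω| / N ^ A` of the points `k` of `Ω` the number
`z = F(k) + g(k) + R(k) / Q + ∑_{i ∈ T} γ i k` is `JointlyRandom B N (N ^ δ)`. -/
theorem result (r D : ℕ) (hD : 1 ≤ D) (F : MvPolynomial (Fin r) ℝ) (hF : F.IsHomogeneous D)
    (T : Finset (Fin r)) (halg : ∀ m, m.support = T → IsAlgebraic ℚ (F.coeff m))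
    (hirr : ∃ m, m.support = T ∧ Irrational (F.coeff m))
    (Q : ℕ) (hQ : 1 ≤ Q) (B : ℕ) (ε δ : ℝ) (hε : 0 < ε) (hδ : 0 < δ) (A : ℕ) :
    ∃ κ : ℝ, 0 < κ ∧ ∃ N₀ : ℕ, ∀ N : ℕ, N₀ ≤ N →
      ∀ g : MvPolynomial (Fin r) ℝ, g.totalDegree < D → ∀ R : MvPolynomial (Fin r) ℤ,
      ∀ (J : Fin r → ℤ) (M : Fin r → ℕ), (∀ i ∈ T, Real.exp (ε * N) ≤ M i) →
      ∀ Z : Fin r → Set (Fin r → ℤ), (∀ i ∈ T, ∀ k z, Function.update k i z ∈ Z i ↔ k ∈ Z i) →
      ∀ γ : Fin r → (Fin r → ℤ) → ℝ, (∀ i ∈ T, ∀ k z, γ i (Function.update k i z) = γ i k) →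
      Real.exp (-(κ * N)) * ∏ i, (M i : ℝ) ≤ (((Cylinder J M T Z).ncard : ℕ) : ℝ) →
      (({k | k ∈ Cylinder J M T Z ∧ ¬ JointlyRandom B N ((N : ℝ) ^ δ)
          (MvPolynomial.eval (fun i => (k i : ℝ)) F + MvPolynomial.eval (fun i => (k i : ℝ)) g +
            ((MvPolynomial.eval k R : ℤ) : ℝ) / Q + ∑ i ∈ T, γ i k)}.ncard : ℕ) : ℝ) ≤
        (((Cylinder J M T Z).ncard : ℕ) : ℝ) / (N : ℝ) ^ A := by
  classical
  set bb : Fin (B - 1) → ℕ := fun l => l + 2 with hbb
  have hdef : ∀ (N : ℕ) (E z : ℝ), Pool.Agent.J6H30.PV.GoodJ bb N E z → JointlyRandom B N E z := by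
    intro N E z h s hs n hn α β hab
    have h1 := h (fun l => s (bb l)) (fun l => hs _) n hn (fun l => α (bb l)) (fun l => β (bb l))
      (fun l => (hab _).1) (fun l => (hab _).2.1) (fun l => (hab _).2.2)
    have e1 : {i : ℕ | 1 ≤ i ∧ i ≤ n ∧ ∀ b : ℕ, 2 ≤ b → b ≤ B →
        α b ≤ Int.fract (z * (b : ℝ) ^ (s b + i)) ∧ Int.fract (z * (b : ℝ) ^ (s b + i)) < β b} =
        (((Icc 1 n).filter (fun i : ℕ => ∀ l, α (bb l) ≤
          Int.fract (z * ((bb l : ℕ) : ℝ) ^ (s (bb l) + i)) ∧
          Int.fract (z * ((bb l : ℕ) : ℝ) ^ (s (bb l) + i)) < β (bb l)) : Finset ℕ) : Set ℕ) := by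
      ext i
      rw [mem_coe, mem_filter, mem_Icc]
      constructor
      · rintro ⟨h2, h3, h4⟩
        refine ⟨⟨h2, h3⟩, fun l => ?_⟩
        have hl := l.2
        exact h4 (bb l) (by rw [hbb]; simp) (by rw [hbb]; simp only; omega)
      · rintro ⟨⟨h2, h3⟩, h4⟩
        refine ⟨h2, h3, fun b hb hbB => ?_⟩
        have h5 := h4 ⟨b - 2, by omega⟩
        have h6 : bb ⟨b - 2, by omega⟩ = b := by
          rw [hbb]
          simp only
          omega
        rw [h6] at h5
        exact h5
    have e2 : ∏ b ∈ Icc 2 B, (β b - α b) = ∏ l, (β (bb l) - α (bb l)) := by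
      symm
      apply prod_bij (fun l _ => bb l)
      · intro l _
        have hl := l.2
        rw [mem_Icc, hbb]
        simp only
        omega
      · intro l _ l' _ h
        rw [hbb] at h
        simp only [add_left_inj] at h
        exact Fin.ext h
      · intro b hb
        rw [mem_Icc] at hb
        refine ⟨⟨b - 2, by omega⟩, mem_univ _, ?_⟩
        rw [hbb]
        simp only
        omega
      · intro l _
        rfl
    rw [e1, Set.ncard_coe_finset, e2, mul_comm (n : ℝ)]
    exact h1
  obtain ⟨κ, hκ, N₀, h⟩ := Pool.Agent.J6H30.PV.cylJ r D hD T F hF halg hirr Q hQ bb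
    (fun l => by rw [hbb]; simp) (fun l l' hll => by
      rw [hbb] at hll
      simp only [add_left_inj] at hll
      exact Fin.ext hll) ε δ hε hδ A
  refine ⟨κ, hκ, max N₀ 1, fun N hN g hg R J M hM Z hZ γ hγ hdens => ?_⟩
  have hN1 : (1 : ℝ) ≤ N := by exact_mod_cast (le_max_right _ _).trans hN
  set Ω : Finset (Fin r → ℤ) :=
    (Pool.Agent.J6H30.PV.box J M).filter (fun k => ∀ i ∈ T, k ∈ Z i) with hΩ
  have hΩe : ∀ k, k ∈ Ω ↔ k ∈ Pool.Agent.J6H30.PV.box J M ∧ ∀ i ∈ T, k ∈ Z i := by
    intro k
    rw [hΩ, mem_filter]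
  have hbox : ∀ k, k ∈ Pool.Agent.J6H30.PV.box J M ↔ ∀ i, J i ≤ k i ∧ k i < J i + M i := by
    intro k
    unfold Pool.Agent.J6H30.PV.box
    rw [Fintype.mem_piFinset]
    exact forall_congr' fun i => mem_Ico
  have hC : Cylinder J M T Z = (Ω : Set (Fin r → ℤ)) := by
    ext k
    rw [mem_coe, hΩe, hbox]
    rfl
  rw [hC, Set.ncard_coe_finset] at hdens ⊢
  have h1 := h N ((le_max_left _ _).trans hN) g hg R J M hM Z hZ γ hγ Ω hΩe hdens
  rw [le_div_iff₀ (by positivity)]
  refine le_trans ?_ h1
  apply mul_le_mul_of_nonneg_right _ (by positivity)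
  refine Nat.cast_le.2 (Set.ncard_le_ncard ?_ ((finite_toSet Ω).subset fun k hk => hk.1))
  rintro k ⟨hk, hbad⟩
  exact ⟨hk, fun hgood => hbad (hdef _ _ _ hgood)⟩

end Pool.Agent.Results.MP_f2f914_nt.AllBasesJointly
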