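import Pool.Agent.J6H93.Fam.Cyc3

/-!
# Almost all conjugates of the numbers `cos (2π / n)` are normal up to `(log n) ^ (3 / 2 - ε)` digits

For every large `n` (no average over `n` is taken) we look at the primitive `n`-th roots of unity `ζ`.
The numbers `2 Re ζ = 2 cos (2π a / n)`, `gcd (a, n) = 1`, are the conjugates of the algebraic number
`2 cos (2π / n)`, and for a polynomial `u` with integral coefficients the numbers `2 Re u(ζ)` are the
conjugates of the element `u(ζ) + u(ζ⁻¹)` of the maximal real subfield of the `n`-th cyclotomic field.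

Let `δ, β > 0` with `2 δ + β < 1`. For all `D`, `B`, `w`, `ε > 0` and all large `n`, for all primitive
`n`-th roots of unity `ζ` except for a proportion `exp (-(log n) ^ β)` of them the following holds: all
real algebraic numbers `y = (Re u(ζ) + Im v(ζ)) / m`, where `u` and `v` are integral polynomials of
degree at most `D`, not both constant, and `m` and the coefficients are at most `exp ((log n) ^ β)`,
have, in every base `b ≤ B`, all words of at most `w` digits with the right frequency in every window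
of the first `(log n) ^ (1 + δ)` digits, up to `ε N + (3 / 4) log n`, where `N` is the length of the
window. The same holds for all `n`-th roots of unity.

Proof. The numbers are values `F(a / n)` of real trigonometric polynomials. For `θ ≥ √n` the sum of
`exp (2π i θ F(a / n))` over `a` modulo `n` is estimated with Vinogradov's method (bilinear shifts
`a + x y` with `x, y ≤ n ^ (2 / 5)` and the mean value theorem). It needs that the Taylor coefficients
`θ F^(j)(a / n) n ^ (-j) / j!` have about the size `θ n ^ (-j)` for `j ≤ C (log n) ^ δ`. This fails only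
if `exp (2π i a / n)` is close to a zero of one of the algebraic polynomials of degree at most `2 D`
which represent these derivatives, so it fails for few `a`.
The saving `exp (-c (log n) ^ (1 - 2 δ))` gives all windows, all words, and all `u, v, m` at once.
-/

set_option autoImplicit false

namespace Pool.Agent.Results.MP_f2f914_nt.ConjugatesInCyclotomicFields

open Polynomial

/-- the word of the `k` digits in base `b` of `y` which follow the first `n` digits after the point,
read as an integer between `0` and `b ^ k - 1` -/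
noncomputable def word (b k n : ℕ) (y : ℝ) : ℕ :=
  ⌊(b : ℝ) ^ k * Int.fract ((b : ℝ) ^ n * y)⌋₊

/-- in every base `2 ≤ b ≤ B` the number of occurrences of every word of `1 ≤ k ≤ w` digits at the
`N` places `s, …, s + N - 1` of `y`, for every window with `s + N ≤ L`, differs from `N / b ^ k` by
at most `ε N + E` -/
def NormalIn (B w : ℕ) (L ε E : ℝ) (y : ℝ) : Prop :=
  ∀ b k j s N : ℕ, 2 ≤ b → b ≤ B → 1 ≤ k → k ≤ w → j < b ^ k → (s : ℝ) + N ≤ L →
    |(({i : ℕ | i < N ∧ word b k (s + i) y = j}.ncard : ℕ) : ℝ) - N / (b : ℝ) ^ k| ≤ ε * N + E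

/-- the integral polynomials `u`, `v` have degree at most `D` and are not both constant, and `m ≥ 1`
and the absolute values of the coefficients are at most `V` -/
def Small (D : ℕ) (V : ℝ) (u v : ℤ[X]) (m : ℕ) : Prop :=
  u.natDegree ≤ D ∧ v.natDegree ≤ D ∧ (1 ≤ u.natDegree ∨ 1 ≤ v.natDegree) ∧
    (∀ i, |(u.coeff i : ℝ)| ≤ V ∧ |(v.coeff i : ℝ)| ≤ V) ∧ 1 ≤ m ∧ (m : ℝ) ≤ V

/-- Let `δ, β > 0` with `2 δ + β < 1`. For all `D`, `B`, `w`, `ε > 0` and all large `n`: for all `n`-th
roots of unity `ζ` with at most `exp (-(log n) ^ β) n` exceptions, and for all primitive `n`-th roots of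
unity `ζ` with at most `exp (-(log n) ^ β) φ(n)` exceptions, every `y = (Re u(ζ) + Im v(ζ)) / m` with
`Small D (exp ((log n) ^ β)) u v m` satisfies
`NormalIn B w ((log n) ^ (1 + δ)) ε ((3 / 4) log n) y`. -/
theorem result (D : ℕ) (δ β : ℝ) (hδ : 0 < δ) (hβ : 0 < β) (hδβ : 2 * δ + β < 1) (B w : ℕ) (ε : ℝ)
    (hε : 0 < ε) : ∃ n₀ : ℕ, ∀ n : ℕ, n₀ ≤ n →
    (({ζ : ℂ | ζ ^ n = 1 ∧ ¬ ∀ (u v : ℤ[X]) (m : ℕ), Small D (Real.exp ((Real.log n) ^ β)) u v m →
      NormalIn B w ((Real.log n) ^ (1 + δ)) ε (3 / 4 * Real.log n)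
        (((aeval ζ u).re + (aeval ζ v).im) / m)}.ncard : ℕ) : ℝ) ≤
      Real.exp (-(Real.log n) ^ β) * n ∧
    (({ζ : ℂ | IsPrimitiveRoot ζ n ∧ ¬ ∀ (u v : ℤ[X]) (m : ℕ),
      Small D (Real.exp ((Real.log n) ^ β)) u v m →
      NormalIn B w ((Real.log n) ^ (1 + δ)) ε (3 / 4 * Real.log n)
        (((aeval ζ u).re + (aeval ζ v).im) / m)}.ncard : ℕ) : ℝ) ≤
      Real.exp (-(Real.log n) ^ β) * n.totient := by
  classical
  obtain ⟨n0, hn0⟩ := Pool.Agent.J6H93.Fam.cyc_roots D 1 le_rfl δ β hδ hβ hδβ B w ε hε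
  refine ⟨n0, fun n hn => ?_⟩
  refine hn0 n hn (fun ζ => ∀ (u v : ℤ[X]) (m : ℕ), Small D (Real.exp ((Real.log n) ^ β)) u v m →
      NormalIn B w ((Real.log n) ^ (1 + δ)) ε (3 / 4 * Real.log n)
        (((aeval ζ u).re + (aeval ζ v).im) / m)) ?_
  intro ζ hζ u v m hS
  obtain ⟨h1, h2, h3, h4, h5, h6⟩ := hS
  intro b k j s N hb hbB hk hkw hj hsN
  have hsml : Pool.Agent.J6H93.Fam.SmlC D (Real.exp ((Real.log n) ^ β)) (fun _ : Fin 1 => u)
      (fun _ : Fin 1 => v) (fun _ : Fin 1 => m) := by
    refine ⟨fun _ => ⟨h1, h2⟩, fun _ i => h4 i, fun _ => h5, fun _ => h6, fun c hc => ?_⟩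
    have hc0 : c 0 ≠ 0 := by
      intro h
      apply hc
      funext i
      rw [Subsingleton.elim i 0, h]
      rfl
    simp only [Fin.sum_univ_one]
    rw [natDegree_C_mul hc0, natDegree_C_mul hc0]
    exact h3
  have key := hζ b (fun _ => u) (fun _ => v) (fun _ => m) hb hbB hsml k s N (fun _ => j) hk hkw
    (fun _ => hj) hsN
  have h7 : {i : ℕ | i < N ∧ word b k (s + i) (((aeval ζ u).re + (aeval ζ v).im) / m) = j} =
      (((Finset.range N).filter (fun i => ∀ _ : Fin 1, Pool.Agent.Y933.KD.wd b k (s + i)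
        (Pool.Agent.J6H93.Fam.Fp u v ζ / m) = j) : Finset ℕ) : Set ℕ) := by
    ext i
    simp only [Set.mem_ofPred_eq, Finset.coe_filter, Finset.mem_range, forall_const]
    rfl
  rw [h7, Set.ncard_coe_finset]
  rw [pow_one] at key
  convert key using 5

end Pool.Agent.Results.MP_f2f914_nt.ConjugatesInCyclotomicFields
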