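import Pool.Agent.J6H36.RB.Fin

/-!
# The expansions of one algebraic number in random integer bases

Let `x` be a real algebraic irrational number.  The base is random: `b = n`, or `b = f(n)` for a fixed
non-constant integer polynomial `f`, where `n` is a random integer of an arbitrary window
`(N, N + L]`; the bounds are uniform in the position `N` of the window.  More generally the expansions
of `x` in several bases `f_1(n), …, f_t(n)` are considered together.  There is an absolute constant
`δ > 0` such that up to the depth `(log L) ^ δ` the expansions behave as those of a random number: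

* the digits (each of them up to its `M`-quantile, `M ≤ exp ((log L) ^ δ)`) are, up to
  `exp (-(log L) ^ δ)` in total variation, independent and uniformly distributed;
* for almost all `n` the sequence `x b ^ k`, `k ≤ K`, has nearly optimal discrepancy `K ^ (-1/2 + ε)`
  for all `K` between a constant and `(log L) ^ δ`, jointly for the bases `f_1(n), …, f_t(n)`.

Method: Vinogradov's mean value theorem with explicit constants and the double Hoelder bound for the
bilinear sum (starting library, project VK), used with the leading coefficient only, which is an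
integral multiple of `x`, so that Liouville's inequality controls it at every position of the window;
comparison of distributions on products of intervals (starting library, `Y951.TU`); a majorant
argument for the digits; concentration for random words.
-/

set_option autoImplicit false

namespace Pool.Agent.Results.MP_f2f914_nt.RandomBases

open Polynomial

/-- the `k`-th digit behind the point of `x` in base `b` (`k ≥ 1`) -/
noncomputable def digit (b k : ℕ) (x : ℝ) : ℕ := ⌊(b : ℝ) * Int.fract ((b : ℝ) ^ (k - 1) * x)⌋₊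

/-- the base `f(n)` -/
def base (f : ℤ[X]) (n : ℕ) : ℕ := (f.eval (n : ℤ)).toNat

/-- There is no nontrivial relation `P_1(f_1(X)) + … + P_t(f_t(X)) = const`: all the polynomials
`P_i` of such a relation are constant.  For `t = 1` this says that `f_1` is not constant. -/
def Unrelated {t : ℕ} (f : Fin t → ℤ[X]) : Prop :=
  ∀ P : Fin t → ℤ[X], (∑ i, (P i).comp (f i)).natDegree = 0 → ∀ i, (P i).natDegree = 0

/-- There is an absolute constant `δ > 0` such that the following holds for every real algebraic
irrational `x` and all unrelated integer polynomials `f_1, …, f_t`.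

(1) Let `L` be large, and let `N` be such that the bases `f_i(n)`, `N < n ≤ N + L`, are positive.  Let
`K ≤ (log L) ^ δ` and `1 ≤ M ≤ exp ((log L) ^ δ)`.  For every set `W` of `t × K` matrices with entries
`0, …, M - 1`, the number of the `n ∈ (N, N + L]` for which the matrix of the `⌊M a_{i,k} / f_i(n)⌋`,
where `a_{i,k}`, `2 ≤ k ≤ K + 1`, is the `k`-th digit of `x` in base `f_i(n)`, belongs to `W`, differs from
`L |W| / M ^ (t K)` by at most `L exp (-(log L) ^ δ)`.

(2) Let `ε, η > 0`.  There is `K₁` such that for all large `L` and all `N` as in (1) all but at most `η L`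
of the `n ∈ (N, N + L]` have the following property: for all `K₁ ≤ K ≤ (log L) ^ δ` and all intervals
`[u_i, v_i)` in `[0, 1]` the number of the `1 ≤ k ≤ K` such that the fractional part of
`x f_i(n) ^ k` is in `[u_i, v_i)` for all `i` differs from `K ∏ (v_i - u_i)` by at most `K ^ (1/2 + ε)`.

(3) Every non-constant polynomial alone is unrelated, and so are `X ^ 2` and `X ^ 2 + X`. -/
theorem result : ∃ δ : ℝ, 0 < δ ∧
    (∀ x : ℝ, IsAlgebraic ℚ x → Irrational x → ∀ (t : ℕ) (f : Fin t → ℤ[X]), Unrelated f →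
      (∃ L₀ : ℕ, ∀ L : ℕ, L₀ ≤ L →
        ∀ N : ℕ, (∀ n : ℕ, N < n → n ≤ N + L → ∀ i, 0 < (f i).eval (n : ℤ)) →
        ∀ K M : ℕ, (K : ℝ) ≤ (Real.log L) ^ δ → 1 ≤ M → (M : ℝ) ≤ Real.exp ((Real.log L) ^ δ) →
        ∀ W : Finset (Fin t → Fin K → Fin M),
        |({n : ℕ | N < n ∧ n ≤ N + L ∧ ∃ w ∈ W, ∀ (i : Fin t) (k : Fin K),
            M * digit (base (f i) n) ((k : ℕ) + 2) x / base (f i) n = (w i k : ℕ)}.ncard : ℝ) -
          L * (W.card / (M : ℝ) ^ (t * K))| ≤ L * Real.exp (-((Real.log L) ^ δ))) ∧
      (∀ ε η : ℝ, 0 < ε → 0 < η → ∃ K₁ L₀ : ℕ, ∀ L : ℕ, L₀ ≤ L →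
        ∀ N : ℕ, (∀ n : ℕ, N < n → n ≤ N + L → ∀ i, 0 < (f i).eval (n : ℤ)) →
        ({n : ℕ | N < n ∧ n ≤ N + L ∧ ¬ ∀ K : ℕ, K₁ ≤ K → (K : ℝ) ≤ (Real.log L) ^ δ →
          ∀ u v : Fin t → ℝ, (∀ i, 0 ≤ u i ∧ u i ≤ v i ∧ v i ≤ 1) →
          |({k : ℕ | 1 ≤ k ∧ k ≤ K ∧ ∀ i, u i ≤ Int.fract (x * (base (f i) n : ℝ) ^ k) ∧
              Int.fract (x * (base (f i) n : ℝ) ^ k) < v i}.ncard : ℝ) - K * ∏ i, (v i - u i)| ≤
            (K : ℝ) ^ (1 / 2 + ε)}.ncard : ℝ) ≤ η * L)) ∧
    (∀ g : ℤ[X], 1 ≤ g.natDegree → Unrelated (fun _ : Fin 1 => g)) ∧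
    Unrelated ![(X : ℤ[X]) ^ 2, X ^ 2 + X] := by
  obtain ⟨δ, hδ0, hδ⟩ := Pool.Agent.J6H36.RB.both_sets
  refine ⟨δ, hδ0, ?_, Pool.Agent.J6H36.RB.indep_one, Pool.Agent.J6H36.RB.indep_two⟩
  intro x halg hirr t f hf
  obtain ⟨A, c0, hA, hc0, htyp⟩ := Pool.Agent.J6H36.RB.typ_single halg hirr
  obtain ⟨⟨L0, h1⟩, h2⟩ := hδ 1 t (fun _ => x) A c0 hA hc0 htyp f hf
  constructor
  · refine ⟨L0, fun L hL N hpos K M hK hM hMX W => ?_⟩
    classical
    have h3 := h1 L hL N hpos K M hK hM hMX (W.image fun w => fun i k _ => w i k)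
    have hc : (W.image fun w => fun (i : Fin t) (k : Fin K) (_ : Fin 1) => w i k).card = W.card := by
      refine Finset.card_image_of_injective _ fun w w' h => ?_
      funext i k
      exact congrFun (congrFun (congrFun h i) k) 0
    rw [hc, mul_one] at h3
    refine le_trans (le_of_eq ?_) h3
    congr 3
    congr 1
    ext n
    refine and_congr_right fun _ => and_congr_right fun _ => ?_
    constructor
    · rintro ⟨w, hw, h⟩
      exact ⟨_, Finset.mem_image_of_mem _ hw, fun i k _ => h i k⟩
    · rintro ⟨w', hw', h⟩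
      obtain ⟨w, hw, rfl⟩ := Finset.mem_image.1 hw'
      exact ⟨w, hw, fun i k => h i k 0⟩
  · intro ε η hε hη
    obtain ⟨K1, L0, h3⟩ := h2 ε η hε hη
    refine ⟨K1, L0, fun L hL N hpos => le_trans ?_ (h3 L hL N hpos)⟩
    rw [Nat.cast_le]
    refine Set.ncard_le_ncard ?_ ((Set.finite_Ioc N (N + L)).subset fun n hn => ⟨hn.1, hn.2.1⟩)
    rintro n ⟨hn1, hn2, hn3⟩
    refine ⟨hn1, hn2, fun hcon => hn3 ?_⟩
    intro K hK1 hK2 u v huv
    have h5 := hcon K hK1 hK2 (fun i _ => u i) (fun i _ => v i) (fun i _ => huv i)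
    simp only [Fin.prod_univ_one] at h5
    refine le_trans (le_of_eq ?_) h5
    congr 3
    congr 1
    ext k
    refine and_congr_right fun _ => and_congr_right fun _ => ?_
    constructor
    · intro h i _
      exact h i
    · intro h i
      exact h i 0

end Pool.Agent.Results.MP_f2f914_nt.RandomBases
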