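import Pool.Agent.J6H93.Fam.Br4

/-!
# For almost all integers `n` the real roots of `P(x) = n`, and all small elements of the fields
which they generate, are normal up to `(log n) ^ (3 / 2 - ε)` digits

Let `P` be a polynomial of degree `d ≥ 2` with real coefficients (for example in `ℤ[X]`), and let
`δ, β > 0` with `2 δ + β < 1`. For all `B`, `w`, `ε > 0` and all large `M`, for all integers `n` with
`|n| ≤ M`, except at most `M exp (-(log M) ^ β)` of them, the following holds: for ALL real roots `x` of
`P(x) = n` and ALL numbers `y = f(x) / m`, where `f` is an integral polynomial with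
`1 ≤ deg f < d` and where `m ≥ 1` and the absolute values of the coefficients of `f` are at most
`exp ((log M) ^ β)`, and in every base `b ≤ B`, all words of at most `w` digits have the right frequency
in every window of the first `(log M) ^ (1 + δ)` digits of `y`, up to `ε N + ε log M`, where `N` is the
length of the window.

If `P` is an integral polynomial, these `y` are algebraic numbers, and the family has one parameter
only, the integer `n`. For `P = X ^ d` these are the elements of the pure fields `ℚ(n ^ (1 / d))`.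

Proof. The large real roots of `P(x) = t` are `x = t ^ (1 / d) Θ(t ^ (-1 / d))` with `Θ` analytic
near `0` (local inverse at infinity), hence `f(x) / m` is a sum of a main term
`c t ^ (k / d)`, `k = deg f`, and of a function which extends analytically to a half plane and has a
smaller order of growth; Cauchy's estimates give the sizes of all derivatives of `f(x(t)) / m`,
uniformly in `f` and `m`. The sums of `exp (2π i θ f(x(n)) / m)` over `n` are estimated for all `θ`
between `1` and `exp ((log M) ^ (1 + δ))`, by the derivative tests of van der Corput for small `θ`, and by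
bilinear shifts `n + u v` with `u, v ≤ M ^ (2 / 5)` and Vinogradov's mean value theorem for
large `θ`. The saving `exp (-c (log M) ^ (1 - 2 δ))` gives all windows, all words, and all `f, m` at
once.
-/

set_option autoImplicit false

namespace Pool.Agent.Results.MP_f2f914_nt.RootsOfIntegerValues

open Polynomial

/-- the word of the `k` digits in base `b` of `y` which follow the first `n` digits after the point,
read as an integer between `0` and `b ^ k - 1` -/
noncomputable def word (b k n : ℕ) (y : ℝ) : ℕ :=
  ⌊(b : ℝ) ^ k * Int.fract ((b : ℝ) ^ n * y)⌋₊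

/-- in every base `2 ≤ b ≤ B` the number of occurrences of every word of `1 ≤ k ≤ w` digits at the
`N` places `s, …, s + N - 1` of `y`, for every window with `s + N ≤ L`, differs from `N / b ^ k` by
at most `ε N + E` -/
def NormalIn (B w : ℕ) (L ε E : ℝ) (y : ℝ) : Prop :=
  ∀ b k j s N : ℕ, 2 ≤ b → b ≤ B → 1 ≤ k → k ≤ w → j < b ^ k → (s : ℝ) + N ≤ L →
    |(({i : ℕ | i < N ∧ word b k (s + i) y = j}.ncard : ℕ) : ℝ) - N / (b : ℝ) ^ k| ≤ ε * N + E

/-- the integral polynomial `f` is not constant, its degree is less than `d`, and `m ≥ 1` and the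
absolute values of the coefficients of `f` are at most `V` -/
def Small (d : ℕ) (V : ℝ) (f : ℤ[X]) (m : ℕ) : Prop :=
  1 ≤ f.natDegree ∧ f.natDegree < d ∧ (∀ i, |(f.coeff i : ℝ)| ≤ V) ∧ 1 ≤ m ∧ (m : ℝ) ≤ V

/-- Let `P` be a real polynomial of degree at least `2` and let `δ, β > 0` with `2 δ + β < 1`. For all
`B`, `w`, `ε > 0` and all large `M`, for all integers `n` with `|n| ≤ M` with at most
`exp (-(log M) ^ β) M` exceptions: for every real `x` with `P(x) = n` and all `f`, `m` with
`Small (deg P) (exp ((log M) ^ β)) f m` the number `y = f(x) / m` satisfies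
`NormalIn B w ((log M) ^ (1 + δ)) ε (ε log M) y`. -/
theorem result (P : ℝ[X]) (hP : 2 ≤ P.natDegree) (δ β : ℝ) (hδ : 0 < δ) (hβ : 0 < β)
    (hδβ : 2 * δ + β < 1) (B w : ℕ) (ε : ℝ) (hε : 0 < ε) : ∃ M₀ : ℕ, ∀ M : ℕ, M₀ ≤ M →
    (({n : ℤ | |n| ≤ M ∧ ¬ ∀ x : ℝ, P.eval x = n → ∀ (f : ℤ[X]) (m : ℕ),
      Small P.natDegree (Real.exp ((Real.log M) ^ β)) f m →
      NormalIn B w ((Real.log M) ^ (1 + δ)) ε (ε * Real.log M) (aeval x f / m)}.ncard : ℕ) : ℝ) ≤
      Real.exp (-(Real.log M) ^ β) * M := by
  classical
  obtain ⟨M₀, hM₀⟩ := Pool.Agent.J6H93.Fam.poly_all P hP δ β hδ hβ hδβ B w ε hε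
  refine ⟨M₀, fun M hM => ?_⟩
  rw [mul_comm (Real.exp _) (M : ℝ)]
  refine le_trans ?_ (hM₀ M hM)
  have hfin : {n : ℤ | |n| ≤ (M : ℤ)}.Finite := by
    refine (Set.finite_Icc (-(M : ℤ)) M).subset ?_
    intro n hn
    exact abs_le.1 (show |n| ≤ (M : ℤ) from hn)
  refine Nat.cast_le.2 (Set.ncard_le_ncard ?_ (hfin.subset fun n hn => hn.1))
  rintro n ⟨hn1, hn2⟩
  refine ⟨hn1, fun hcon => hn2 ?_⟩
  intro x hx f m hf b k j s N hb hbB hk hkw hj hsN
  have key := hcon x hx f m hf b hb hbB k s N (fun _ => j) hk hkw (fun _ => hj) hsN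
  have h7 : {i : ℕ | i < N ∧ word b k (s + i) (aeval x f / m) = j} =
      (((Finset.range N).filter (fun i => ∀ _ : Fin 1, Pool.Agent.Y933.KD.wd b k (s + i)
        (aeval x f / m) = j) : Finset ℕ) : Set ℕ) := by
    ext i
    simp only [Set.mem_ofPred_eq, Finset.coe_filter, Finset.mem_range, forall_const]
    rfl
  rw [h7, Set.ncard_coe_finset]
  rw [pow_one] at key
  convert key using 5

end Pool.Agent.Results.MP_f2f914_nt.RootsOfIntegerValues
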